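import Pool.Agent.helper73.TF.Spec

/-! tf, row BGP: ping-pong for transvections. -/

set_option autoImplicit false

namespace Pool.Agent.TF

open Matrix Pool.Agent.H48SL
open scoped Pointwise

/-- the sum norm -/
def BGP_N {n : ℕ} (x : Fin n → ℤ) : ℤ := ∑ i, |x i|

theorem BGP_N_nonneg {n : ℕ} (x : Fin n → ℤ) : 0 ≤ BGP_N x := Finset.sum_nonneg fun _ _ => abs_nonneg _

theorem BGP_N_add {n : ℕ} (x y : Fin n → ℤ) : BGP_N (x + y) ≤ BGP_N x + BGP_N y := by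
  unfold BGP_N
  rw [← Finset.sum_add_distrib]
  exact Finset.sum_le_sum fun i _ => abs_add_le _ _

theorem BGP_N_smul {n : ℕ} (a : ℤ) (x : Fin n → ℤ) : BGP_N (a • x) = |a| * BGP_N x := by
  unfold BGP_N
  rw [Finset.mul_sum]
  refine Finset.sum_congr rfl fun i _ => ?_
  rw [Pi.smul_apply, smul_eq_mul, abs_mul]

theorem BGP_N_dot {n : ℕ} (f x : Fin n → ℤ) : |f ⬝ᵥ x| ≤ BGP_N f * BGP_N x := by
  unfold dotProduct
  refine (Finset.abs_sum_le_sum_abs _ _).trans ?_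
  have h1 : BGP_N f * BGP_N x = ∑ i, BGP_N f * |x i| := by
    rw [← Finset.mul_sum]
    rfl
  rw [h1]
  refine Finset.sum_le_sum fun i _ => ?_
  rw [abs_mul]
  refine mul_le_mul_of_nonneg_right ?_ (abs_nonneg _)
  exact Finset.single_le_sum (f := fun i => |f i|) (fun j _ => abs_nonneg _) (Finset.mem_univ i)

theorem BGP_N_pos {n : ℕ} {x : Fin n → ℤ} (h : x ≠ 0) : 1 ≤ BGP_N x := by
  obtain ⟨i, hi⟩ := Function.ne_iff.mp h
  have h1 : |x i| ≤ BGP_N x := Finset.single_le_sum (f := fun i => |x i|) (fun j _ => abs_nonneg _) (Finset.mem_univ i)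
  have h2 : 1 ≤ |x i| := Int.one_le_abs hi
  linarith

theorem BGP_act {n : ℕ} {z : SLZ n} {v f : Fin n → ℤ} (h : Tv z v f) (a : ℤ) (x : Fin n → ℤ) :
    ((z ^ a : SLZ n) : Matrix (Fin n) (Fin n) ℤ) *ᵥ x = x + (a * (f ⬝ᵥ x)) • v := by
  have h1 : (a • f) ⬝ᵥ v = 0 := by rw [smul_dotProduct, h.dot, smul_zero]
  rw [h.eq, ← tv_zsmul_right h.dot a, tv_mulVec h1, smul_dotProduct, smul_eq_mul]

theorem BGP_main {n s : ℕ} (z : Fin s → SLZ n) (v f : Fin s → Fin n → ℤ) (hT : ∀ i, Tv (z i) (v i) (f i))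
    (hp : ∀ i j, i ≠ j → f i ⬝ᵥ v j ≠ 0) (C : ℤ) (hC : 1 ≤ C) (hv : ∀ i, BGP_N (v i) ≤ C) (hf : ∀ i, BGP_N (f i) ≤ C)
    (y₀ : Fin n → ℤ) (hy : BGP_N y₀ = 1) (w : List (Fin s × ℤ)) :
    ∀ p : Fin s × ℤ, ((p :: w).map Prod.fst).IsChain (fun i j => i ≠ j) →
    (∀ q ∈ p :: w, 16 * C ^ 3 + 4 * C ^ 2 + 1 ≤ |q.2|) →
    f ((p :: w).getLast (List.cons_ne_nil p w)).1 ⬝ᵥ y₀ ≠ 0 →
    ∃ (A : ℤ) (B : Fin n → ℤ), ((((p :: w).map fun p => z p.1 ^ p.2).prod : SLZ n) : Matrix (Fin n) (Fin n) ℤ) *ᵥ y₀ =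
      A • v p.1 + B ∧ 4 * C ^ 2 * BGP_N B ≤ |A| ∧ 4 * C ^ 2 + 1 ≤ |A| := by
  induction w with
  | nil =>
    intro p _ hM hl
    refine ⟨p.2 * (f p.1 ⬝ᵥ y₀), y₀, ?_, ?_, ?_⟩
    · simp only [List.map_cons, List.map_nil, List.prod_cons, List.prod_nil, mul_one]
      rw [BGP_act (hT p.1), add_comm]
    · rw [hy, abs_mul]
      have h1 := hM p List.mem_cons_self
      have h2 : 1 ≤ |f p.1 ⬝ᵥ y₀| := Int.one_le_abs hl
      have h3 : 0 ≤ C ^ 3 := by positivity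
      nlinarith [abs_nonneg p.2]
    · rw [abs_mul]
      have h1 := hM p List.mem_cons_self
      have h2 : 1 ≤ |f p.1 ⬝ᵥ y₀| := Int.one_le_abs hl
      have h3 : 0 ≤ C ^ 3 := by positivity
      nlinarith [abs_nonneg p.2]
  | cons q w ih =>
    intro p hc hM hl
    have hc' : p.1 ≠ q.1 ∧ ((q :: w).map Prod.fst).IsChain (fun i j => i ≠ j) := by
      rw [List.map_cons, List.map_cons, List.isChain_cons_cons] at hc
      exact hc
    have hl' : f ((q :: w).getLast (List.cons_ne_nil q w)).1 ⬝ᵥ y₀ ≠ 0 := by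
      rw [List.getLast_cons (List.cons_ne_nil q w)] at hl
      exact hl
    obtain ⟨A, B, h1, h2, h3⟩ := ih q hc'.2 (fun r hr => hM r (List.mem_cons_of_mem p hr)) hl'
    set y : Fin n → ℤ := A • v q.1 + B with hydef
    have hprod : ((((p :: q :: w).map fun p => z p.1 ^ p.2).prod : SLZ n) : Matrix (Fin n) (Fin n) ℤ) *ᵥ y₀ =
        ((z p.1 ^ p.2 : SLZ n) : Matrix (Fin n) (Fin n) ℤ) *ᵥ y := by
      rw [List.map_cons, List.prod_cons, Matrix.SpecialLinearGroup.coe_mul, ← mulVec_mulVec, h1]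
    have hfy : f p.1 ⬝ᵥ y = A * (f p.1 ⬝ᵥ v q.1) + f p.1 ⬝ᵥ B := by
      rw [hydef, dotProduct_add, dotProduct_smul, smul_eq_mul]
    have hB0 := BGP_N_nonneg B
    have hfB : |f p.1 ⬝ᵥ B| ≤ C * BGP_N B :=
      (BGP_N_dot _ _).trans (mul_le_mul_of_nonneg_right (hf p.1) hB0)
    have hC2 : C * BGP_N B ≤ C ^ 2 * BGP_N B := by
      apply mul_le_mul_of_nonneg_right _ hB0
      nlinarith
    have hfB4 : 4 * |f p.1 ⬝ᵥ B| ≤ |A| := by linarith
    have hfv : 1 ≤ |f p.1 ⬝ᵥ v q.1| := Int.one_le_abs (hp _ _ hc'.1)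
    have hA0 := abs_nonneg A
    have hfy2 : |A| ≤ 2 * |f p.1 ⬝ᵥ y| := by
      have e1 : |A| ≤ |A * (f p.1 ⬝ᵥ v q.1)| := by
        rw [abs_mul]
        nlinarith
      have e2 : |A * (f p.1 ⬝ᵥ v q.1)| ≤ |f p.1 ⬝ᵥ y| + |f p.1 ⬝ᵥ B| := by
        have : A * (f p.1 ⬝ᵥ v q.1) = f p.1 ⬝ᵥ y - f p.1 ⬝ᵥ B := by rw [hfy]; ring
        rw [this]
        exact abs_sub _ _
      linarith
    have hNy : BGP_N y ≤ 2 * C * |A| := by
      have e1 : BGP_N y ≤ |A| * C + BGP_N B := by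
        refine (BGP_N_add _ _).trans ?_
        rw [BGP_N_smul]
        have := mul_le_mul_of_nonneg_left (hv q.1) hA0
        linarith
      have e2 : BGP_N B ≤ |A| := by
        have : BGP_N B ≤ 4 * C ^ 2 * BGP_N B := by nlinarith
        linarith
      nlinarith
    have hMp := hM p List.mem_cons_self
    have hC3 : 0 ≤ C ^ 3 := by positivity
    have hfy0 := abs_nonneg (f p.1 ⬝ᵥ y)
    refine ⟨p.2 * (f p.1 ⬝ᵥ y), y, ?_, ?_, ?_⟩
    · rw [hprod, BGP_act (hT p.1), add_comm]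
    · rw [abs_mul]
      have e1 : (16 * C ^ 3) * |f p.1 ⬝ᵥ y| ≤ |p.2| * |f p.1 ⬝ᵥ y| :=
        mul_le_mul_of_nonneg_right (by nlinarith) hfy0
      have e2 : 4 * C ^ 2 * BGP_N y ≤ 4 * C ^ 2 * (2 * C * |A|) :=
        mul_le_mul_of_nonneg_left hNy (by positivity)
      have e3 : 4 * C ^ 2 * (2 * C * |A|) ≤ (16 * C ^ 3) * |f p.1 ⬝ᵥ y| := by
        have : 4 * C ^ 2 * (2 * C * |A|) = 8 * C ^ 3 * |A| := by ring
        rw [this]
        nlinarith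
      linarith
    · rw [abs_mul]
      have e1 : 2 * |f p.1 ⬝ᵥ y| ≤ |p.2| * |f p.1 ⬝ᵥ y| :=
        mul_le_mul_of_nonneg_right (by nlinarith) hfy0
      linarith

theorem BGP : BGP_stmt := by
  intro n H hR s z hz hcp
  choose hzH v f hT using hz
  set C : ℤ := 1 + ∑ i, (BGP_N (v i) + BGP_N (f i)) with hCdef
  have hs : ∀ i, BGP_N (v i) + BGP_N (f i) ≤ ∑ i, (BGP_N (v i) + BGP_N (f i)) := fun i =>
    Finset.single_le_sum (f := fun i => BGP_N (v i) + BGP_N (f i))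
      (fun j _ => add_nonneg (BGP_N_nonneg _) (BGP_N_nonneg _)) (Finset.mem_univ i)
  have hS0 : 0 ≤ ∑ i, (BGP_N (v i) + BGP_N (f i)) :=
    Finset.sum_nonneg fun i _ => add_nonneg (BGP_N_nonneg _) (BGP_N_nonneg _)
  have hC : 1 ≤ C := by linarith
  have hv : ∀ i, BGP_N (v i) ≤ C := fun i => by
    have := hs i
    have := BGP_N_nonneg (f i)
    linarith
  have hf : ∀ i, BGP_N (f i) ≤ C := fun i => by
    have := hs i
    have := BGP_N_nonneg (v i)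
    linarith
  have hp : ∀ i j, i ≠ j → f i ⬝ᵥ v j ≠ 0 := fun i j hij =>
    (hR.pair (z i) (z j) (v i) (f i) (v j) (f j) (hzH i) (hzH j) (hT i) (hT j) (hcp i j hij)).1
  have hM0 : 0 ≤ 16 * C ^ 3 + 4 * C ^ 2 + 1 := by positivity
  refine ⟨(16 * C ^ 3 + 4 * C ^ 2 + 1).toNat, ?_⟩
  intro w hw hc hM hprod
  rw [Int.toNat_of_nonneg hM0] at hM
  obtain ⟨p, w', rfl⟩ := List.exists_cons_of_ne_nil hw
  obtain ⟨j, hj⟩ := Function.ne_iff.mp (hT ((p :: w').getLast hw).1).ne_f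
  have hy : BGP_N (Pi.single j 1 : Fin n → ℤ) = 1 := by
    unfold BGP_N
    rw [Finset.sum_eq_single j]
    · rw [Pi.single_eq_same, abs_one]
    · intro i _ hi
      rw [Pi.single_eq_of_ne hi, abs_zero]
    · intro h
      exact absurd (Finset.mem_univ j) h
  have hl : f ((p :: w').getLast hw).1 ⬝ᵥ (Pi.single j 1 : Fin n → ℤ) ≠ 0 := by
    rw [dotProduct_single, mul_one]
    exact hj
  obtain ⟨A, B, h1, h2, h3⟩ := BGP_main z v f hT hp C hC hv hf (Pi.single j 1) hy w' p hc hM hl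
  rw [hprod, Matrix.SpecialLinearGroup.coe_one, one_mulVec] at h1
  have h4 : A • v p.1 = (Pi.single j 1 : Fin n → ℤ) + (-1 : ℤ) • B := by
    rw [h1]
    simp
  have h5 : |A| * BGP_N (v p.1) ≤ 1 + BGP_N B := by
    rw [← BGP_N_smul, h4]
    refine (BGP_N_add _ _).trans ?_
    rw [hy, BGP_N_smul]
    simp
  have h6 := BGP_N_pos (hT p.1).ne_v
  have h7 := abs_nonneg A
  have h8 : |A| ≤ 1 + BGP_N B := by nlinarith
  have h9 := BGP_N_nonneg B
  have h10 : 1 ≤ C ^ 2 := one_le_pow₀ hC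
  have h11 : 4 * BGP_N B ≤ 4 * C ^ 2 * BGP_N B := by nlinarith
  linarith

end Pool.Agent.TF
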