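import Pool.Agent.helper73.TF.Spec

/-! tf, row SLV: transvections in solvable subgroups. -/

set_option autoImplicit false

namespace Pool.Agent.TF

open Matrix Pool.Agent.H48SL
open scoped Pointwise

theorem SLV_free_not_solvable : ¬ Group.IsSolvable (FreeGroup (Fin 2)) := by
  intro h
  set σ : Equiv.Perm (Fin 5) := finRotate 5 with hσ
  set τ : Equiv.Perm (Fin 5) := Equiv.swap 0 1 with hτ
  have h1 : Subgroup.closure ({σ, τ} : Set (Equiv.Perm (Fin 5))) = ⊤ := by
    apply Equiv.Perm.closure_prime_cycle_swap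
    · rw [Fintype.card_fin]
      norm_num
    · exact isCycle_finRotate
    · exact support_finRotate
    · exact ⟨0, 1, by decide, rfl⟩
  have h2 : Function.Surjective (FreeGroup.lift (fun i : Fin 2 => if i = 0 then σ else τ)) := by
    rw [← MonoidHom.range_eq_top, FreeGroup.range_lift_eq_closure, ← h1]
    congr 1
    ext x
    simp only [Set.mem_range, Set.mem_insert_iff, Set.mem_singleton_iff]
    constructor
    · rintro ⟨i, hi⟩
      split_ifs at hi
      · exact Or.inl hi.symm
      · exact Or.inr hi.symm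
    · rintro (hx | hx)
      · exact ⟨0, by rw [if_pos rfl, hx]⟩
      · exact ⟨1, by rw [if_neg (by decide), hx]⟩
  exact Equiv.Perm.not_isSolvable_fin_5 (Group.isSolvable_of_surjective h2)

/-- syllables -/
theorem SLV_syl {ι : Type} [DecidableEq ι] (L : List (ι × Bool)) : FreeGroup.mk L = 1 ∨
    ∃ w : List (ι × ℤ), w ≠ [] ∧ (w.map Prod.fst).IsChain (fun i j => i ≠ j) ∧ (∀ p ∈ w, p.2 ≠ 0) ∧
      FreeGroup.mk L = (w.map fun p => FreeGroup.of p.1 ^ p.2).prod := by
  induction L with
  | nil => exact Or.inl rfl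
  | cons a L ih =>
    obtain ⟨i, b⟩ := a
    obtain ⟨e, he, heq⟩ : ∃ e : ℤ, e ≠ 0 ∧ FreeGroup.mk ((i, b) :: L) = FreeGroup.of i ^ e * FreeGroup.mk L := by
      cases b
      · refine ⟨-1, by norm_num, ?_⟩
        rw [_root_.zpow_neg, zpow_one, FreeGroup.of, FreeGroup.inv_mk, FreeGroup.mul_mk]
        rfl
      · refine ⟨1, one_ne_zero, ?_⟩
        rw [zpow_one, FreeGroup.of, FreeGroup.mul_mk]
        rfl
    rw [heq]
    rcases ih with h1 | ⟨w, hw, hc, h0, h1⟩
    · right
      rw [h1, mul_one]
      exact ⟨[(i, e)], by simp, by simp, by simpa using he, by simp⟩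
    · rw [h1]
      obtain ⟨p, w', rfl⟩ := List.exists_cons_of_ne_nil hw
      by_cases hi : i = p.1
      · subst hi
        by_cases hz : e + p.2 = 0
        · have h2 : FreeGroup.of p.1 ^ e * ((p :: w').map fun p => FreeGroup.of p.1 ^ p.2).prod =
              (w'.map fun p => FreeGroup.of p.1 ^ p.2).prod := by
            rw [List.map_cons, List.prod_cons, ← mul_assoc, ← _root_.zpow_add, hz, zpow_zero, one_mul]
          rw [h2]
          cases w' with
          | nil => left; rfl
          | cons q w'' =>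
            right
            refine ⟨q :: w'', by simp, ?_, fun r hr => h0 r (List.mem_cons_of_mem _ hr), rfl⟩
            rw [List.map_cons, List.map_cons, List.isChain_cons_cons] at hc
            exact hc.2
        · right
          refine ⟨(p.1, e + p.2) :: w', by simp, ?_, ?_, ?_⟩
          · rw [List.map_cons] at hc ⊢
            exact hc
          · intro r hr
            rcases List.mem_cons.mp hr with rfl | hr
            · exact hz
            · exact h0 r (List.mem_cons_of_mem _ hr)
          · rw [List.map_cons, List.prod_cons, List.map_cons, List.prod_cons, ← mul_assoc, ← _root_.zpow_add]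
      · right
        refine ⟨(i, e) :: p :: w', by simp, ?_, ?_, ?_⟩
        · rw [List.map_cons, List.map_cons, List.isChain_cons_cons]
          exact ⟨hi, hc⟩
        · intro r hr
          rcases List.mem_cons.mp hr with rfl | hr
          · exact he
          · exact h0 r hr
        · rw [List.map_cons (l := p :: w'), List.prod_cons]

theorem SLV (hBGP : BGP_stmt) : SLV_stmt := by
  intro n H hR S hS hsol z hz hzT p hp
  by_contra hcp
  set z' : SLZ n := p * z * p⁻¹ with hz'
  have hz'S : z' ∈ S := S.mul_mem (S.mul_mem hp hz) (S.inv_mem hp)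
  obtain ⟨v, f, hT⟩ := hzT
  have hz'T : IsTv z' := by
    refine ⟨(p : Matrix (Fin n) (Fin n) ℤ) *ᵥ v, f ᵥ* ((p⁻¹ : SLZ n) : Matrix (Fin n) (Fin n) ℤ), ?_, ?_, ?_, ?_⟩
    · intro h0
      apply hT.ne_v
      have h1 : ((p⁻¹ : SLZ n) : Matrix (Fin n) (Fin n) ℤ) *ᵥ ((p : Matrix (Fin n) (Fin n) ℤ) *ᵥ v) = v := by
        rw [mulVec_mulVec, ← Matrix.SpecialLinearGroup.coe_mul, inv_mul_cancel, Matrix.SpecialLinearGroup.coe_one,
          one_mulVec]
      rw [← h1, h0, mulVec_zero]
    · intro h0
      apply hT.ne_f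
      have h1 : (f ᵥ* ((p⁻¹ : SLZ n) : Matrix (Fin n) (Fin n) ℤ)) ᵥ* (p : Matrix (Fin n) (Fin n) ℤ) = f := by
        rw [vecMul_vecMul, ← Matrix.SpecialLinearGroup.coe_mul, inv_mul_cancel, Matrix.SpecialLinearGroup.coe_one,
          vecMul_one]
      rw [← h1, h0, zero_vecMul]
    · rw [vecMul_inv_dot, hT.dot]
    · rw [hz', hT.eq]
      exact tv_conj hT.dot p
  have hcp' : ¬ CP z' z := by
    rintro ⟨a, b, ha, hb, hab⟩
    exact hcp ⟨b, a, hb, ha, hab.symm⟩
  obtain ⟨M, hM⟩ := hBGP n H hR 2 (fun i => if i = 0 then z else z') (by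
    intro i
    split_ifs
    · exact ⟨hS hz, v, f, hT⟩
    · exact ⟨hS hz'S, hz'T⟩) (by
    intro i j hij
    fin_cases i <;> fin_cases j
    · exact absurd rfl hij
    · exact hcp
    · exact hcp'
    · exact absurd rfl hij)
  set Z : Fin 2 → SLZ n := fun i => if i = 0 then z else z' with hZ
  have hZS : ∀ i, Z i ∈ S := by
    intro i
    rw [hZ]
    dsimp only
    split_ifs
    · exact hz
    · exact hz'S
  set φ : FreeGroup (Fin 2) →* S := FreeGroup.lift (fun i : Fin 2 => (⟨Z i ^ ((M : ℤ) + 1), S.zpow_mem (hZS i) _⟩ : S)) with hφ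
  have hinj : Function.Injective φ := by
    rw [injective_iff_map_eq_one]
    intro x hx
    rw [← FreeGroup.mk_toWord (x := x)] at hx ⊢
    rcases SLV_syl x.toWord with h1 | ⟨w, hw, hc, h0, h1⟩
    · exact h1
    · exfalso
      rw [h1] at hx
      have h2 : ((φ ((w.map fun p => FreeGroup.of p.1 ^ p.2).prod) : S) : SLZ n) = 1 := by rw [hx]; rfl
      have h3 : ((φ ((w.map fun p => FreeGroup.of p.1 ^ p.2).prod) : S) : SLZ n) =
          ((w.map fun p => (p.1, ((M : ℤ) + 1) * p.2)).map fun p => Z p.1 ^ p.2).prod := by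
        rw [← Subgroup.coe_subtype, ← MonoidHom.comp_apply, map_list_prod, List.map_map, List.map_map]
        congr 1
        apply List.map_congr_left
        intro q _
        rw [Function.comp_apply, Function.comp_apply, map_zpow, MonoidHom.comp_apply, hφ, FreeGroup.lift_apply_of,
          Subgroup.coe_subtype]
        dsimp only
        rw [_root_.zpow_mul]
      rw [h3] at h2
      refine hM (w.map fun p => (p.1, ((M : ℤ) + 1) * p.2)) ?_ ?_ ?_ h2
      · intro h4
        exact hw (List.map_eq_nil_iff.mp h4)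
      · rw [List.map_map]
        exact hc
      · intro q hq
        obtain ⟨r, hr, rfl⟩ := List.mem_map.mp hq
        have h5 : 1 ≤ |r.2| := Int.one_le_abs (h0 r hr)
        rw [abs_mul]
        have h6 : |(M : ℤ) + 1| = (M : ℤ) + 1 := abs_of_nonneg (by positivity)
        rw [h6]
        nlinarith
  exact SLV_free_not_solvable (Group.isSolvable_of_isSolvable_injective hinj)

end Pool.Agent.TF
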